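import Pool.Agent.Y775.CC.Main
set_option autoImplicit false

/-!
Integral classes in `K_3` of the self-products `C × C` of the curves `C : z + 1/z = F(x)` over
number fields (`i = 2`, `m = 0`, `n = 3`): for *every* monic polynomial `F` of degree `n ≥ 2` with
integral coefficients the symbol `{x_1 - x_2, z_1, z_2}` is unramified at all discrete valuations of
the function field of `C × C`, and if `F` has no critical value in `[-2, 2]` at the complex place
`s`, then its regulators on the products `γ_i × γ_j` of the `n` loops of `C` over the components of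
`F(x) ∈ [-2, 2]` form a symmetric matrix with row sums zero that is negative definite modulo
constants.
-/

namespace Pool.Agent.Results.MP_15b3df_nt.DiagonalClasses

open Polynomial

open Pool.Agent.TH826.MK (KQ symb Torus Unramified circ)

open Pool.Agent.Y775.CC

/-- `γ` is the loop `z = R e^{2πiθ}`, `x = φ(z + 1/z)` of complex points over `s` of the curve
`C : z² - F(x) z + 1 = 0`. -/
structure IsLoop {K : Type*} [Field K] (s : K →+* ℂ) {F : K[X]} (φ : ℂ → ℂ) (R : ℝ)
    (γ : Torus (CRing F) 1) : Prop where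
  eq_const : ∀ θ (a : K), γ.e θ (cc F a) = s a
  eq_x : ∀ θ, γ.e θ (cx F) = φ (uu R (θ 0))
  eq_z : ∀ θ, γ.e θ (cz F) = circ R (θ 0)

/-- `Γ` is the product of the loops `γ` and `γ'` in the complex points of `C × C`. -/
structure IsProd {K : Type*} [Field K] {F : K[X]} (γ γ' : Torus (CRing F) 1)
    (Γ : Torus (ORing F) 2) : Prop where
  fst : ∀ θ r, Γ.e θ (toO F (pr1 F r)) = γ.e (fun _ => θ 0) r
  snd : ∀ θ r, Γ.e θ (toO F (pr2 F r)) = γ'.e (fun _ => θ 1) r

/-- `Γ_{ij}` are the products `γ_i × γ'_j` of the loops `γ_i : |z| = R, x = φ_i(z + 1/z)` and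
`γ'_i : |z| = 1, x = φ_i(z + 1/z)` of complex points of `C` over `s`, where the `φ_i` are the `n`
analytic inverses of `F` on a convex open set `V` that contains `[-2, 2]` and the closed region
`{z + 1/z : 1 ≤ |z| ≤ R}` between the loops, `R > 1`. -/
def LoopTori {K : Type*} [Field K] (s : K →+* ℂ) (F : K[X]) {n : ℕ}
    (Γ : Fin n → Fin n → Torus (ORing F) 2) : Prop :=
  ∃ (V : Set ℂ) (φ : Fin n → ℂ → ℂ) (R : ℝ) (γ γ' : Fin n → Torus (CRing F) 1),
    Branches (F.map s) V φ ∧ 1 < R ∧ (∀ z : ℂ, 1 ≤ ‖z‖ → ‖z‖ ≤ R → z + z⁻¹ ∈ V) ∧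
    (∀ i, IsLoop s (φ i) R (γ i)) ∧ (∀ i, IsLoop s (φ i) 1 (γ' i)) ∧
    ∀ i j, IsProd (γ i) (γ' j) (Γ i j)

/-- The matrix of the regulators of the symbol `{x_1 - ζ x_2, z_1, z_2}` on the tori `Γ_{ij}`. -/
noncomputable def regM {K : Type*} [Field K] {F : K[X]} {n : ℕ}
    (Γ : Fin n → Fin n → Torus (ORing F) 2) (ζ : Sym F) (i j : Fin n) : ℝ :=
  (Γ i j).reg (symb (ent F ζ))

/-- A symmetric real matrix with row sums zero whose quadratic form is negative at all nonconstant
vectors. -/
structure NegModConst {n : ℕ} (M : Fin n → Fin n → ℝ) : Prop where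
  symm : ∀ i j, M i j = M j i
  row : ∀ i, ∑ j, M i j = 0
  neg : ∀ c : Fin n → ℝ, (∃ i j, c i ≠ c j) → ∑ i, ∑ j, c i * c j * M i j < 0

/-- The symbols `{x_1 - ζ x_2, z_1, z_2}`, `F(ζ x) = F(x)`, are unramified at all discrete
valuations of the function field `L` of `C × C`. -/
def AllUnramified {K : Type*} [Field K] (F : K[X]) (L : Type*) [Field L] [Algebra (SRing F) L] :
    Prop :=
  ∃ f : ORing F →+* L, (∀ r : SRing F, f (toO F r) = algebraMap (SRing F) L r) ∧
    ∀ ζ : Sym F, KQ.map 3 f (symb (ent F ζ)) ∈ Unramified L 3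

/-- Let `K` be a number field, `s : K → ℂ` an embedding, `F` a monic polynomial of degree `n ≥ 2`
whose coefficients are algebraic integers of `K`, without critical value in `[-2, 2]` over `s`. Let
`C` be the curve `z² - F(x) z + 1 = 0`, `SRing F` the coordinate ring of `C × C` and `ORing F` that
of its open part `F(x_1) ≠ F(x_2)`. Then `SRing F` is a domain and `C` is smooth at its complex
points over `s`. For all `ζ ∈ K` with `F(ζ x) = F(x)` (in particular `ζ = 1`) the symbol
`{x_1 - ζ x_2, z_1, z_2}` is unramified at all discrete valuations of the function field of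
`C × C`. There are tori `Γ_{ij} = γ_i × γ'_j` as in `LoopTori` such that the matrix of the
regulators `⟨{x_1 - x_2, z_1, z_2}, Γ_{ij}⟩` is symmetric with row sums zero, and its quadratic form
is negative at all nonconstant vectors `c`. The regulators of the symbols `{x_1 - ζ x_2, z_1, z_2}`
for different `ζ` are linearly independent over `ℝ`, except that their sum over `n` different `ζ`
may vanish. -/
theorem result.{u, v} (K : Type u) [Field K] [NumberField K] (s : K →+* ℂ) (n : ℕ) (hn : 2 ≤ n)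
    (F : K[X]) (hm : F.Monic) (hdeg : F.natDegree = n) (hF : ∀ i, IsIntegral ℤ (F.coeff i))
    (hcrit : ∀ x : ℂ, (derivative F).eval₂ s x = 0 → ∀ t : ℝ, |t| ≤ 2 → F.eval₂ s x ≠ t) :
    IsDomain (SRing F) ∧ SmoothPts s F ∧
    (∀ (L : Type v) [Field L] [Algebra (SRing F) L] [IsFractionRing (SRing F) L],
      AllUnramified F L) ∧
    ∃ Γ : Fin n → Fin n → Torus (ORing F) 2, LoopTori s F Γ ∧ NegModConst (regM Γ (symOne F)) ∧
      ∀ (T : Finset (Sym F)) (t : Sym F → ℝ), (∀ i j, ∑ ζ ∈ T, t ζ * regM Γ ζ i j = 0) →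
        (∀ ζ ∈ T, t ζ = 0) ∨ (T.card = n ∧ ∀ ζ ∈ T, ∀ ζ' ∈ T, t ζ = t ζ') := by
  have hpos : 0 < F.natDegree := by omega
  refine ⟨isDomain_SRing hpos, smoothPts hcrit, ?_, ?_⟩
  · intro L _ _ _
    have hinj : Function.Injective (algebraMap (SRing F) L) := IsFractionRing.injective _ _
    have hunit : IsUnit (algebraMap (SRing F) L (sdel F)) := by
      refine IsUnit.mk0 _ ?_
      rw [Ne, map_eq_zero_iff _ hinj]
      exact sdel_ne_zero hpos
    exact ⟨IsLocalization.Away.lift (sdel F) hunit, fun r =>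
      IsLocalization.Away.lift_eq (sdel F) hunit r, fun ζ =>
      symb_ent_mem_unramified hm hF hpos _ ζ⟩
  · obtain ⟨V, φ, R, γ, γ', Γ, hB, hR, hV, h1, h2, h3, h4, h5, h6, h7⟩ := main hm hdeg hn hcrit
    exact ⟨Γ, ⟨V, φ, R, γ, γ', hB, hR, hV,
      fun i => ⟨fun θ => (h1 i θ).1, fun θ => (h1 i θ).2.1, fun θ => (h1 i θ).2.2⟩,
      fun i => ⟨fun θ => (h2 i θ).1, fun θ => (h2 i θ).2.1, fun θ => (h2 i θ).2.2⟩,
      fun i j => ⟨fun θ r => (h3 i j θ r).1, fun θ r => (h3 i j θ r).2⟩⟩, ⟨h4, h5, h6⟩, h7⟩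

end Pool.Agent.Results.MP_15b3df_nt.DiagonalClasses
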