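import Pool.Agent.Y775.DN.Smooth
import Pool.Agent.Y797.CY.Unr
import Pool.Agent.Y797.CY.Quad
import Pool.Agent.Y797.IV.Unr
set_option autoImplicit false

/-!
Beilinson's conjecture (`m = 0`, `i = dim X`, weight `dim X + 1`): on the smooth double covers
`z + κ + 1/z = λ ∏_e L_e` of the affine space of dimension `n + 1 ≥ 1` over an arbitrary number field
(for instance over `ℚ`), the `L_e` being `m + 1` arbitrary affine forms in general position,
`p_g = binom(m, n + 1)` unramified classes in Milnor K-theory with linearly independent regulators,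
for all large and sufficiently divisible integers `λ`. No unimodularity of the arrangement is
assumed.
-/

namespace Pool.Agent.Results.MP_15b3df_nt.DoubleCoversNumberField

open Pool.Agent.TH826.MK (KQ symb Unramified Torus)

open Pool.Agent.TH826.GA (splx)

open Pool.Agent.TH333.CY (YRing YOpen ceqn yent ycst toY isDomain_YRing ydel ydel_ne_zero liftY
  liftY_toY exists_tori)

open Pool.Agent.Y797.IV (Clears GenPos)

open Pool.Agent.Y797.CY (sq_ne_four two_root_ne)

section defs

variable {K : Type*} [Field K] {n m : ℕ}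

/-- `κ` is integral and `X² + κ X + 1` divides `X^N - 1` for some `N > 0`. -/
def Cyclotomic (κ : K) : Prop :=
  IsIntegral ℤ κ ∧ ∃ N : ℕ, N ≠ 0 ∧
    (Polynomial.X ^ 2 + Polynomial.C κ * Polynomial.X + 1 : Polynomial K) ∣ Polynomial.X ^ N - 1

/-- At all complex points of the hypersurface `z² + κ z + 1 = Φ z` the gradient of the equation is
not `0`. -/
def SmoothPoints (σ : K →+* ℂ) (lam κ : K) (c : Fin (m + 1) → Fin (n + 1) → K)
    (a : Fin (m + 1) → K) : Prop :=
  ∀ p : Fin (0 + 1) ⊕ Fin (n + 1) → ℂ,
    MvPolynomial.eval₂ σ p (ceqn lam (fun _ => κ) c a) = 0 →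
    ∃ i, MvPolynomial.eval₂ σ p (MvPolynomial.pderiv i (ceqn lam (fun _ => κ) c a)) ≠ 0

/-- The symbols of all simplices are unramified at all discrete valuations of the fraction field of
the coordinate ring of the hypersurface. -/
def UnramifiedSymbols.{u, v} {K : Type u} [Field K] (lam κ : K)
    (c : Fin (m + 1) → Fin (n + 1) → K) (a : Fin (m + 1) → K) : Prop :=
  ∀ (L : Type v) [Field L] [Algebra (YRing lam (fun _ : Fin (0 + 1) => κ) c a) L]
    [IsFractionRing (YRing lam (fun _ : Fin (0 + 1) => κ) c a) L],
    ∃ f : YOpen lam (fun _ : Fin (0 + 1) => κ) c a →+* L,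
      (∀ b : YRing lam (fun _ : Fin (0 + 1) => κ) c a, f (toY lam (fun _ => κ) c a b) =
        algebraMap (YRing lam (fun _ : Fin (0 + 1) => κ) c a) L b) ∧
      ∀ S : Fin (n + 2) → Fin (m + 1), Function.Injective S →
        KQ.map (0 + (n + 1) + 1) f (symb (yent lam (fun _ => κ) c a S)) ∈
          Unramified L (0 + (n + 1) + 1)

/-- There are `binom(m, n + 1)` tori of dimension `n + 1` in the complex points of the open part,
such that the determinant of the regulators on the tori of the symbols of the simplices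
`(0, t_0, ..., t_n)`, `1 ≤ t_0 < ... < t_n ≤ m`, does not vanish. -/
def IndependentRegulators (σ : K →+* ℂ) (lam κ : K)
    (c : Fin (m + 1) → Fin (n + 1) → K) (a : Fin (m + 1) → K) : Prop :=
  ∃ Γ : {t : Finset (Fin m) // t.card = n + 1} →
      Torus (YOpen lam (fun _ : Fin (0 + 1) => κ) c a) (0 + (n + 1)),
    (∀ t θ (x : K), (Γ t).e θ (ycst lam (fun _ => κ) c a x) = σ x) ∧
    (Matrix.of fun t i : {t : Finset (Fin m) // t.card = n + 1} =>
      (Γ t).reg (symb (yent lam (fun _ => κ) c a (splx i)))).det ≠ 0

end defs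

/-- Let `n + 1 ≤ m`, let `σ` be a complex embedding of the number field `K`, let `κ` be an integer
of `K` such that the polynomial `X² + κ X + 1` divides `X^N - 1` (e.g. `κ ∈ {0, 1, -1}`, `N = 12`),
and let `L_e = ∑_j c_{e,j} x_j - a_e`, `0 ≤ e ≤ m`, be affine forms in `n + 1` variables with
integral coefficients in `K` in general position (the linear parts of `n + 1` different forms are
linearly independent, `n + 2` different forms have no common zero). An algebraic integer `D ≠ 0` of
`K` clears the denominators of the vertices, if the coordinates of `D p` are integral for all common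
zeros `p` of `n + 1` forms; there are such `D` (even positive rational integers). There is a
constant `C` such that for all these `D`, all algebraic integers `μ` of `K` and
`λ = μ D ^ (m + 1)` with `|σ λ| ≥ C` the coordinate ring of the hypersurface `z² + κ z + 1 = Φ z`,
`Φ = λ ∏_e L_e`, in the affine space with the coordinates `z, x_0, ..., x_n` is a domain; the
hypersurface is smooth (the gradient of the equation does not vanish) at all complex points over
`σ`; for all `n + 2` different forms `S` the symbol `{z, u_1, ..., u_{n+1}}`,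
`u_k = γ_k L_{S_k} / (γ_0 L_{S_0})`, on the open part `Φ z ≠ 0` is unramified at all discrete
valuations of the function field, where `γ_k` is `(-1)^k` times the determinant of the linear parts
of the forms `S` without `S_k`; and there are `binom(m, n + 1)` tori of dimension `n + 1` in the
complex points (over `σ`) of the open part, such that the determinant of the regulators on the tori
of the symbols of the `S = (0, t_0, ..., t_n)` with `1 ≤ t_0 < ... < t_n ≤ m` does not vanish. -/
theorem result.{u, v} (n m : ℕ) (hm : n + 1 ≤ m) (K : Type u) [Field K]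
    [NumberField K] (σ : K →+* ℂ) (κ : K) (hκ : Cyclotomic κ)
    (c : Fin (m + 1) → Fin (n + 1) → K) (a : Fin (m + 1) → K) (hc : ∀ e j, IsIntegral ℤ (c e j))
    (ha : ∀ e, IsIntegral ℤ (a e)) (hG : GenPos c a) :
    (∃ D : ℕ, Clears c a (D : K)) ∧
    ∃ C : ℝ, ∀ D mu : K, Clears c a D → IsIntegral ℤ mu → C ≤ ‖σ (mu * D ^ (m + 1))‖ →
      IsDomain (YRing (mu * D ^ (m + 1)) (fun _ : Fin (0 + 1) => κ) c a) ∧
      SmoothPoints σ (mu * D ^ (m + 1)) κ c a ∧
      UnramifiedSymbols.{u, v} (mu * D ^ (m + 1)) κ c a ∧
      IndependentRegulators σ (mu * D ^ (m + 1)) κ c a := by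
  obtain ⟨hκ1, N, hN0, hN⟩ := hκ
  refine ⟨Pool.Agent.Y797.IV.exists_clears c a, ?_⟩
  obtain ⟨c1, hc1, h⟩ := exists_tori (s := 0) (a := a) σ (fun _ => κ) hG.1 hG.2
  obtain ⟨c2, h2⟩ := Pool.Agent.Y775.DN.exists_smooth (κ := fun _ => κ) σ hG.1 hG.2 hm
    fun _ => sq_ne_four hN0 hN
  have hrow : ∀ e, c e ≠ 0 := Pool.Agent.TH826.DC.row_ne_zero hG.1 (by omega)
  refine ⟨max c1 c2, fun D mu hD hmu hl => ?_⟩
  generalize hlam : mu * D ^ (m + 1) = lam at hl
  have hl1 : c1 ≤ ‖σ lam‖ := (le_max_left _ _).trans hl
  have hl0 : lam ≠ 0 := by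
    intro h0
    rw [h0, map_zero, norm_zero] at hl1
    linarith
  refine ⟨isDomain_YRing hrow hl0 two_ne_zero fun _ => two_root_ne hN0 hN,
    h2 lam ((le_max_right _ _).trans hl), ?_, h lam hl1⟩
  intro L _ _ _
  have hinj : Function.Injective (algebraMap (YRing lam (fun _ : Fin (0 + 1) => κ) c a) L) :=
    IsFractionRing.injective _ _
  have hne : algebraMap (YRing lam (fun _ : Fin (0 + 1) => κ) c a) L
      (ydel lam (fun _ => κ) c a) ≠ 0 := by
    rw [Ne, map_eq_zero_iff _ hinj]
    exact ydel_ne_zero hrow hl0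
  refine ⟨liftY (algebraMap (YRing lam (fun _ : Fin (0 + 1) => κ) c a) L) hne,
    fun b => liftY_toY _ _ _, fun S hS => ?_⟩
  exact Pool.Agent.Y797.CY.symb_mem_unramified _ hG hc ha hD hmu hlam.symm (fun _ => hκ1) hN0
    (fun _ => hN) hS

end Pool.Agent.Results.MP_15b3df_nt.DoubleCoversNumberField
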