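import Pool.Agent.Y775.SN.Unr
import Pool.Agent.Y797.IV.Unr
set_option autoImplicit false

/-!
Unramified classes with independent regulators in the Milnor K-theory of fibrations over the affine
space in Calabi-Yau varieties and in other varieties mirror to weighted hypersurfaces, over
arbitrary number fields (for instance over `ℚ`): on the varieties
`z + y_1 + ... + y_q + 1/(z y_1 ^ v_1 ... y_q ^ v_q) = λ ∏_e L_e`, `q ≥ 1`, `v_i ≥ 1`, of
dimension `n + 1 + q`, the `L_e` being `m + 1` arbitrary affine forms in `n + 1` variables in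
general position, there are `binom(m, n + 1)` unramified classes with linearly independent
regulators, for all large and sufficiently divisible integers `λ`. No unimodularity of the
arrangement is assumed.
-/

namespace Pool.Agent.Results.MP_15b3df_nt.SimplexFibrationsNumberField

open Pool.Agent.TH690.SF

open Pool.Agent.Y797.IV (Clears GenPos)

/-- Let `q ≥ 1` (below `q + 1` is written for `q`), let `v_i = w_i + 1 ≥ 1`, `i = 1, ..., q`, be
arbitrary integers, let `n + 1 ≤ m`, let `σ` be a complex embedding of the number field `K`, and let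
`L_e = ∑_j c_{e,j} x_j - a_e`, `0 ≤ e ≤ m`, be affine forms in `n + 1` variables with integral
coefficients in `K` in general position (the linear parts of `n + 1` different forms are linearly
independent, `n + 2` different forms have no common zero). An algebraic integer `D ≠ 0` of `K`
clears the denominators of the vertices, if the coordinates of `D p` are integral for all common
zeros `p` of `n + 1` forms; there are such `D` (even positive rational integers). There is a
constant `C` such that for all these `D`, all algebraic integers `μ` of `K` and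
`λ = μ D ^ (m + 1)` with `|σ λ| ≥ C` the coordinate ring of the affine hypersurface
`F = Y z² + Y (y_1 + ... + y_q - Φ) z + 1 = 0`, `Y = y_1 ^ v_1 ... y_q ^ v_q`, `Φ = λ ∏_e L_e`, of
dimension `n + 1 + q` (that is `z + y_1 + ... + y_q + 1/(z y_1 ^ v_1 ... y_q ^ v_q) = Φ`) is a
domain; the hypersurface is smooth at all its complex points over `σ` (the partial derivatives
`∂F/∂z`, `∂F/∂y_k` and `∂F/∂x_j = - Y z ∂Φ/∂x_j` do not vanish simultaneously); for all `n + 2`
different forms `S` the symbol `{z, u_1, ..., u_{n+1}, y_1, ..., y_q}`,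
`u_k = γ_k L_{S_k} / (γ_0 L_{S_0})`, on the open part `Φ ≠ 0` is unramified at all discrete
valuations of the function field, where `γ_k` is `(-1)^k` times the determinant of the linear parts
of the forms `S` without `S_k`; and there are `binom(m, n + 1)` tori of dimension `n + 1 + q` in the
complex points (over `σ`) of the open part, such that the determinant of the regulators on the tori
of the symbols of the `S = (0, t_0, ..., t_n)` with `1 ≤ t_0 < ... < t_n ≤ m` does not vanish. -/
theorem result.{u, v} (n m q : ℕ) (w : Fin (q + 1) → ℕ) (hm : n + 1 ≤ m) (K : Type u) [Field K]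
    [NumberField K] (σ : K →+* ℂ) (c : Fin (m + 1) → Fin (n + 1) → K) (a : Fin (m + 1) → K)
    (hc : ∀ e j, IsIntegral ℤ (c e j)) (ha : ∀ e, IsIntegral ℤ (a e)) (hG : GenPos c a) :
    (∃ D : ℕ, Clears c a (D : K)) ∧
    ∃ C : ℝ, ∀ D mu : K, Clears c a D → IsIntegral ℤ mu → C ≤ ‖σ (mu * D ^ (m + 1))‖ →
      IsDomain (SRing w (mu * D ^ (m + 1)) c a) ∧ SmoothPts w σ (mu * D ^ (m + 1)) c a ∧
        UnramSymb.{u, v} w (mu * D ^ (m + 1)) c a ∧ IndepReg w σ (mu * D ^ (m + 1)) c a := by
  refine ⟨Pool.Agent.Y797.IV.exists_clears c a, ?_⟩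
  obtain ⟨c1, hc1, h⟩ := exists_tori (a := a) w σ hG.1 hG.2
  obtain ⟨c2, h2⟩ := exists_smoothPts (a := a) w σ hG.1 hG.2 hm
  have hrow : ∀ e, c e ≠ 0 := Pool.Agent.TH826.DC.row_ne_zero hG.1 (by omega)
  refine ⟨max c1 c2, fun D mu hD hmu hl => ?_⟩
  generalize hlam : mu * D ^ (m + 1) = lam at hl
  have hl1 : c1 ≤ ‖σ lam‖ := (le_max_left _ _).trans hl
  have hl0 : lam ≠ 0 := by
    intro h0
    rw [h0, map_zero, norm_zero] at hl1
    linarith
  exact ⟨isDomain_SRing hrow hl0, h2 lam ((le_max_right _ _).trans hl),
    Pool.Agent.Y775.SN.unramSymb w hG hrow hc ha hD hmu hlam.symm hl0, h lam hl1⟩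

end Pool.Agent.Results.MP_15b3df_nt.SimplexFibrationsNumberField
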