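import Pool.Agent.Y797.TP.Unr
import Pool.Agent.Y797.TP.Cone
set_option autoImplicit false

/-!
Beilinson's conjecture on regulators: pencils `∏ x = λ ∏ M` of Calabi-Yau hypersurfaces in products
of projective spaces over a number field, where the `x` are the homogeneous coordinates and the `M`
are linear forms given by matrices of roots of unity which are inverse to such matrices up to scalars
(for example Butson-Hadamard matrices). If `λ` is a unit, the symbol of the coordinates and the
symbol of the linear forms are both unramified, and their regulators at two places are linearly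
independent if `λ` is small at the first place and large at the second place.
-/

namespace Pool.Agent.Results.MP_15b3df_nt.TwoPlacePencils

open Pool.Agent.TH826.MK (KQ Unramified Torus)

open Pool.Agent.Y797.TP

open NumberField (InfinitePlace)

section defs

variable {K : Type*} [Field K] {s d : ℕ}

/-- The class has unramified images in `K_{d+1}^M ⊗ ℚ` of all fields `L` with a homomorphism from the
coordinate ring of the open part to `L`. -/
def UnramifiedImages.{u, v} {K : Type u} [Field K] {A : Pencil K s d} {lam : K}
    (x : KQ (A.Open lam) (d + 1)) : Prop :=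
  ∀ (L : Type v) [Field L] (f : A.Open lam →+* L), KQ.map (d + 1) f x ∈ Unramified L (d + 1)

/-- The points of the torus are points over the embedding `σ`. -/
def Over {A : Pencil K s d} {lam : K} (Γ : Torus (A.Open lam) d) (σ : K →+* ℂ) : Prop :=
  ∀ θ (x : K), Γ.e θ (A.toO lam (MvPolynomial.C x)) = σ x

/-- The regulator of the symbol of the coordinates. -/
noncomputable def regA {A : Pencil K s d} {lam : K} (Γ : Torus (A.Open lam) d) : ℝ :=
  Γ.reg (A.alpha lam)

/-- The regulator of the symbol of the linear forms. -/
noncomputable def regB {A : Pencil K s d} {lam : K} (Γ : Torus (A.Open lam) d) : ℝ :=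
  Γ.reg (A.beta lam)

/-- There are a torus in the complex points over `σ` and a torus in the complex points over `τ` such
that the determinant of the regulators of the two symbols on the two tori does not vanish. -/
def IndependentRegulators (A : Pencil K s d) (lam : K) (σ τ : K →+* ℂ) : Prop :=
  ∃ Γ Δ : Torus (A.Open lam) d, Over Γ σ ∧ Over Δ τ ∧ regA Γ * regB Δ - regB Γ * regA Δ ≠ 0

/-- The complex points (over `σ`) of the hypersurface on which no coordinate vanishes are smooth. -/
def SmoothOpen (A : Pencil K s d) (lam : K) (σ : K →+* ℂ) : Prop :=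
  ∀ z : Fin (d + 1) → ℂ, (∀ i, z i ≠ 0) → Pencil.SmoothAt (MvPolynomial.map σ (A.eqn lam)) z

/-- `λ` is a unit of the ring of integers. -/
def IsUnitInt (lam : K) : Prop := IsIntegral ℤ lam ∧ IsIntegral ℤ lam⁻¹ ∧ lam ≠ 0

end defs

/-- Let `K` be a number field, and let `A` be a pencil over `K`: homogeneous coordinates `x_e` of a
product of `s + 1` projective spaces of total dimension `d + 1`, and two square matrices `H` and `G`,
whose entries `H_{e,f}` and `G_{e,f}` are roots of unity if `e` and `f` belong to the same factor and
`0` otherwise, such that `G^t H` is a diagonal matrix, whose entries are `c_j ≠ 0` on the factor `j`.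
Let `M_e = ∑_f H_{e,f} x_f`, and let `X_λ` be the hypersurface `∏_e x_e = λ ∏_e M_e` (an
anticanonical hypersurface, of dimension `d`).

If `λ` is a unit of the ring of integers of `K`, the symbol `α` of the quotients
`x_{inr i} / x_{inl j}` and the symbol `β` of the quotients `M_{inr i} / M_{inl j}` (`i = 0, ..., d`,
`j` the factor of `inr i`) have unramified images in `K_{d+1}^M ⊗ ℚ` of all fields `L` with a
homomorphism from the coordinate ring of the open part of `X_λ`, on which no coordinate vanishes,
to `L` (for example the function fields of the components of `X_λ`).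

For all embeddings `σ` and `τ` of `K` there is `ε > 0` such that for all `λ ≠ 0` with `|σ λ| < ε`
and `|τ λ| > 1 / ε` there are a torus in the complex points of the open part over `σ` and a torus in
the complex points of the open part over `τ` such that the determinant of the regulators of `α` and
`β` on the two tori does not vanish. If `σ` and `τ` define different places, infinitely many units
`λ` satisfy these conditions.

For all embeddings `σ` there is `ε > 0` such that for all `λ ≠ 0` with `|σ λ| < ε` the open part is
smooth (over `σ`), and `X_λ` is smooth (over `σ`) if there is no point of the product of the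
projective spaces with two vanishing coordinates and two vanishing forms `M_e`.

Example: all this holds for the hypersurfaces `∏_j x_j = λ ∏_j (1 + x_j) (1 - x_j)` in the product of
`d + 1` projective lines (over every number field), which satisfy the last condition if `d ≤ 2`
(elliptic curves, K3 surfaces). -/
theorem result.{u, v} (K : Type u) [Field K] [NumberField K] :
    (∀ (s d : ℕ) (A : Pencil K s d), A.Valid →
      (∀ lam : K, IsUnitInt lam → UnramifiedImages.{u, v} (A.alpha lam) ∧
        UnramifiedImages.{u, v} (A.beta lam)) ∧
      (∀ σ τ : K →+* ℂ, ∃ ε : ℝ, 0 < ε ∧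
        (∀ lam : K, lam ≠ 0 → ‖σ lam‖ < ε → ε⁻¹ < ‖τ lam‖ → IndependentRegulators A lam σ τ) ∧
        (InfinitePlace.mk σ ≠ InfinitePlace.mk τ →
          {lam : K | IsUnitInt lam ∧ ‖σ lam‖ < ε ∧ ε⁻¹ < ‖τ lam‖}.Infinite)) ∧
      ∀ σ : K →+* ℂ, ∃ ε : ℝ, 0 < ε ∧ ∀ lam : K, lam ≠ 0 → ‖σ lam‖ < ε →
        SmoothOpen A lam σ ∧ (A.Transversal σ → A.SmoothProj lam σ)) ∧
    ∀ d : ℕ, (signPencil K d).Valid ∧ (d ≤ 2 → ∀ σ : K →+* ℂ, (signPencil K d).Transversal σ) := by
  refine ⟨fun s d A hA => ⟨fun lam hlam =>
    ⟨fun L _ f => (both_unramified f hA hlam.1 hlam.2.1 hlam.2.2).1,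
      fun L _ f => (both_unramified f hA hlam.1 hlam.2.1 hlam.2.2).2⟩, fun σ τ => ?_, fun σ => ?_⟩,
    fun d => ⟨signPencil_valid K d, fun hd σ => signPencil_transversal hd σ⟩⟩
  · obtain ⟨ε, hε, h⟩ := exists_two hA σ τ
    refine ⟨ε, hε, h, fun hne => (exists_units σ τ hne hε).mono ?_⟩
    rintro u ⟨h1, h2, h3, h4, h5⟩
    exact ⟨⟨h1, h2, h3⟩, h4, h5⟩
  · obtain ⟨ε, hε, h⟩ := exists_smooth A σ
    by_cases hT : A.Transversal σ
    · obtain ⟨ε', hε', h'⟩ := exists_smoothProj hA σ hT
      exact ⟨min ε ε', lt_min hε hε', fun lam hlam hl =>
        ⟨h lam hlam (hl.trans_le (min_le_left _ _)), fun _ =>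
          h' lam hlam (hl.trans_le (min_le_right _ _))⟩⟩
    · exact ⟨ε, hε, fun lam hlam hl => ⟨h lam hlam hl, fun h2 => absurd h2 hT⟩⟩

end Pool.Agent.Results.MP_15b3df_nt.TwoPlacePencils
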